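import Pool.Agent.helper19.MX.SpecD

/-!
# Row mx:EXA
-/

set_option linter.unusedVariables false

namespace MX

open Pool.Agent.helper53.AU AN
open scoped Classical Topology IntermediateField
open Finset (range powerset Icc)

noncomputable section

lemma EXA_aux (k Ω : Type) [Field k] [Field Ω] [Algebra k Ω] (x : Ω) (y : ℕ → Ω) (r : ℕ) (f : ℕ → Polynomial k)
    (htr : Transcendental k x) (heq : ∀ j < r, y j ^ 2 + y j = Polynomial.aeval x (f j))
    (hodd : ∀ T ⊆ range r, T ≠ ∅ → Odd (∑ j ∈ T, f j).natDegree) (E : IntermediateField k Ω)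
    (hE : IntermediateField.adjoin k ({x} ∪ y '' {j | j < r}) = E) (x' : E) (hx' : (x' : Ω) = x)
    (y' : ℕ → E) (hy' : ∀ j, (y' j : Ω) = y j) : AS k E x' r y' f where
  tr := by
    intro h
    apply htr
    rw [← hx']
    exact h.algebraMap
  gen := by
    apply IntermediateField.lift_injective E
    rw [IntermediateField.lift_adjoin, IntermediateField.lift_top, Set.image_union, Set.image_singleton, hx',
      Set.image_image]
    simp only [hy']
    exact hE
  eq := by
    intro j hj
    apply Subtype.ext
    have h1 := heq j hj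
    have h2 := Polynomial.aeval_algHom_apply E.val x' (f j)
    rw [IntermediateField.coe_val, hx'] at h2
    rw [← h2, ← h1, ← hy']
    rfl
  odd := hodd

/-- Row EXA. -/
theorem EXA : EXA_stmt := by
  intro K _ _ r f hodd
  set k := AlgebraicClosure K with hk
  let Ω := AlgebraicClosure (RatFunc k)
  let x : Ω := algebraMap (RatFunc k) Ω RatFunc.X
  have htr : Transcendental k x :=
    (transcendental_algebraMap_iff (algebraMap (RatFunc k) Ω).injective).2 RatFunc.transcendental_X
  have htr' : Transcendental K x := htr.restrictScalars (algebraMap K k).injective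
  have hroot : ∀ j, ∃ z : Ω, z ^ 2 + z = Polynomial.aeval x (f j) := by
    intro j
    set c : Ω := Polynomial.aeval x (f j) with hc
    have hdeg : (Polynomial.X ^ 2 + Polynomial.X - Polynomial.C c : Polynomial Ω).degree = 2 := by
      compute_degree!
    obtain ⟨z, hz⟩ := IsAlgClosed.exists_root (Polynomial.X ^ 2 + Polynomial.X - Polynomial.C c : Polynomial Ω)
      (by rw [hdeg]; norm_num)
    refine ⟨z, ?_⟩
    rw [Polynomial.IsRoot.def, Polynomial.eval_sub, Polynomial.eval_add, Polynomial.eval_pow, Polynomial.eval_X,
      Polynomial.eval_C] at hz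
    exact sub_eq_zero.1 hz
  choose z hz using hroot
  let y : ℕ → Ω := fun j => if j < r then z j else 0
  have hy : ∀ j < r, y j ^ 2 + y j = Polynomial.aeval x (f j) := by
    intro j hj
    simp only [y, if_pos hj]
    exact hz j
  let S : Set Ω := {x} ∪ y '' {j | j < r}
  let F : IntermediateField K Ω := IntermediateField.adjoin K S
  let F' : IntermediateField k Ω := IntermediateField.adjoin k S
  have hxF : x ∈ F := IntermediateField.subset_adjoin K S (Or.inl rfl)
  have hyF : ∀ j, y j ∈ F := by
    intro j
    by_cases h : j < r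
    · exact IntermediateField.subset_adjoin K S (Or.inr ⟨j, h, rfl⟩)
    · simp only [y, if_neg h]
      exact zero_mem _
  have hle : ∀ w : Ω, w ∈ F → w ∈ F' := by
    intro w hw
    have h1 : F ≤ F'.restrictScalars K := by
      apply IntermediateField.adjoin_le_iff.2
      exact IntermediateField.subset_adjoin k S
    exact h1 hw
  let j : F →+* F' :=
    { toFun := fun w => ⟨w.1, hle w.1 w.2⟩
      map_one' := rfl
      map_mul' := fun _ _ => rfl
      map_zero' := rfl
      map_add' := fun _ _ => rfl }
  refine ⟨F, inferInstance, inferInstance, F', inferInstance, inferInstance, j, ⟨x, hxF⟩, fun i => ⟨y i, hyF i⟩,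
    ?_, ?_, ?_⟩
  · exact EXA_aux K Ω x y r f htr' hy hodd F rfl _ rfl _ (fun _ => rfl)
  · apply EXA_aux k Ω x y r _ htr ?_ ?_ F' rfl _ rfl _ (fun _ => rfl)
    · intro i hi
      rw [Polynomial.aeval_map_algebraMap]
      exact hy i hi
    · intro T hT hT'
      rw [← Polynomial.map_sum, Polynomial.natDegree_map]
      exact hodd T hT hT'
  · intro c
    rfl

end

end MX
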